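import Pool.Agent.Helper406.Rec.Neg

/-!
# A set of 2-recurrence which is not a set of recurrence for commuting pairs

We disprove Q1: the explicit set
`S = { ∑_{i ∈ J} s_i · 6561^(i²) : s_i ∈ {0,1,3,4}, #{i ∈ J : s_i = 4} not divisible by 3 }`
is a set of 2-recurrence, but for some commuting invertible measure preserving `T₁, T₂` and some
`A` of positive measure `μ (A ∩ T₁ⁿ A ∩ T₂ⁿ A) = 0` for every (nonzero) `n ∈ S`.
-/

open MeasureTheory

universe u

namespace Pool.Agent.Results.MP_74ad1e_an.CommutingPairFails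

/-- The integer powers of an invertible bimeasurable map, as bijections. -/
def zpw {X : Type u} [MeasurableSpace X] (T : X ≃ᵐ X) (n : ℤ) : Equiv.Perm X :=
  (T.toEquiv : Equiv.Perm X) ^ n

/-- Sets of `k`-recurrence. -/
def IsSetOfRecurrence (k : ℕ) (R : Set ℤ) : Prop :=
  ∀ (X : Type u) [MeasurableSpace X] (μ : Measure X) [IsProbabilityMeasure μ] (T : X ≃ᵐ X),
    MeasurePreserving T μ μ → ∀ A : Set X, MeasurableSet A → 0 < μ A →
      ∃ n ∈ R, n ≠ 0 ∧ 0 < μ (⋂ j ∈ Finset.range (k + 1), (zpw T ((j : ℤ) * n)) '' A)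

/-- The explicit set. -/
def digitSet : Set ℤ :=
  {n | ∃ (J : Finset ℕ) (s : ℕ → ℕ), (∀ i ∈ J, s i = 0 ∨ s i = 1 ∨ s i = 3 ∨ s i = 4) ∧
    ¬ 3 ∣ (J.filter (fun i => s i = 4)).card ∧ n = ((∑ i ∈ J, s i * 6561 ^ (i ^ 2) : ℕ) : ℤ)}

open Pool.Agent.Helper406.Rec

lemma mem_digitSet (n : ℤ) : n ∈ digitSet ↔ ∃ N : ℕ, InS N ∧ n = N := by
  constructor
  · rintro ⟨J, s, h1, h2, h3⟩
    exact ⟨_, ⟨J, s, h1, h2, rfl⟩, h3⟩
  · rintro ⟨N, ⟨J, s, h1, h2, h3⟩, h4⟩
    exact ⟨J, s, h1, h2, by rw [h4, h3]; rfl⟩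

lemma inS_pos {N : ℕ} (h : InS N) : 0 < N := by
  obtain ⟨J, s, _, h2, h3⟩ := h
  rcases Nat.eq_zero_or_pos N with h0 | h0
  · exfalso
    rw [h0] at h3
    have h4 : J.filter (fun i => s i = 4) = ∅ := by
      apply Finset.filter_eq_empty_iff.2
      intro i hi hs
      have h5 := (Finset.sum_eq_zero_iff.1 h3.symm) i hi
      have h6 := Lam_pos i
      rw [hs] at h5
      omega
    rw [h4] at h2
    simp at h2
  · exact h0

lemma zpw_image {X : Type u} [MeasurableSpace X] (T : X ≃ᵐ X) (m : ℕ) (A : Set X) :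
    (zpw T (m : ℤ)) '' A = (T.symm)^[m] ⁻¹' A := by
  unfold zpw
  rw [zpow_natCast, Equiv.image_eq_preimage_symm]
  have h : ∀ x, ((T.toEquiv : Equiv.Perm X) ^ m).symm x = (T.symm)^[m] x := by
    intro x
    have h1 : ((T.toEquiv : Equiv.Perm X) ^ m).symm = ((T.toEquiv : Equiv.Perm X)⁻¹) ^ m := by
      rw [inv_pow]; rfl
    rw [h1, ← Equiv.Perm.iterate_eq_pow]
    rfl
  ext x
  simp only [Set.mem_preimage, h]

theorem twoRecurrence : IsSetOfRecurrence.{u} 2 digitSet := by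
  intro X _ μ _ T hT A hA hpos
  have hU : MeasurePreserving T.symm μ μ := hT.symm T
  obtain ⟨N, hN, hpos'⟩ := positivity_main μ hU hA hpos
  refine ⟨(N : ℤ), (mem_digitSet _).2 ⟨N, hN, rfl⟩, ?_, ?_⟩
  · have := inS_pos hN
    exact_mod_cast this.ne'
  · have h1 : A ∩ (T.symm)^[N] ⁻¹' A ∩ (T.symm)^[2 * N] ⁻¹' A ⊆
        ⋂ j ∈ Finset.range (2 + 1), (zpw T ((j : ℤ) * (N : ℤ))) '' A := by
      rintro x ⟨⟨h0, h1⟩, h2⟩
      simp only [Set.mem_iInter, Finset.mem_range]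
      intro j hj
      rw [show ((j : ℤ) * (N : ℤ)) = ((j * N : ℕ) : ℤ) by push_cast; ring, zpw_image]
      interval_cases j
      · simpa using h0
      · simpa using h1
      · exact h2
    refine lt_of_lt_of_le ?_ (measure_mono h1)
    unfold nu Measure.real at hpos'
    exact (ENNReal.toReal_pos_iff.1 hpos').1

lemma emp_ge (K : ℕ) (g h : ZMod 9) (hd : 1 / 162 ≤ avg (fun x => ind (AA K g h x))) :
    ENNReal.ofReal (1 / 162) ≤ emp (code (AA K g h)) (cyl 0) := by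
  classical
  rw [emp_apply _ (cyl_clopen 0).1.measurableSet]
  have h1 : (Finset.univ.filter fun x => code (AA K g h) x ∈ cyl 0)
      = Finset.univ.filter fun x => AA K g h x := by
    ext x
    simp only [Finset.mem_filter, Finset.mem_univ, true_and]
    have h2 := code_iff (AA K g h) x 0
    show code (AA K g h) x 0 = true ↔ AA K g h x
    simpa using h2
  rw [h1]
  have h2 : avg (fun x => ind (AA K g h x))
      = ((Finset.univ.filter fun x => AA K g h x).card : ℝ)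
        / (Fintype.card (ZMod (Lam K) × ZMod (Lam K)) : ℝ) := by
    unfold avg
    congr 1
    rw [Finset.card_filter]
    push_cast
    apply Finset.sum_congr rfl
    intro x _
    by_cases hx : AA K g h x
    · rw [ind_true hx, if_pos hx]
    · rw [ind_false hx, if_neg hx]
  rw [h2] at hd
  have hc : (0:ℝ) < (Fintype.card (ZMod (Lam K) × ZMod (Lam K)) : ℝ) := by
    exact_mod_cast Fintype.card_pos
  have h3 : (((Fintype.card (ZMod (Lam K) × ZMod (Lam K)) : ℕ) : ENNReal))⁻¹ *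
      ((Finset.univ.filter fun x => AA K g h x).card : ENNReal)
      = ENNReal.ofReal (((Finset.univ.filter fun x => AA K g h x).card : ℝ)
        / (Fintype.card (ZMod (Lam K) × ZMod (Lam K)) : ℝ)) := by
    rw [ENNReal.ofReal_div_of_pos hc, ENNReal.ofReal_natCast, ENNReal.ofReal_natCast, mul_comm,
      div_eq_mul_inv]
  rw [h3]
  exact ENNReal.ofReal_le_ofReal hd

/-- **Q1 is false.** -/
theorem result :
    IsSetOfRecurrence.{u} 2 digitSet ∧
    ∃ (X : Type) (_ : MeasurableSpace X) (_ : StandardBorelSpace X) (μ : Measure X)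
      (_ : IsProbabilityMeasure μ) (T₁ T₂ : X ≃ᵐ X) (A : Set X),
      MeasurePreserving T₁ μ μ ∧ MeasurePreserving T₂ μ μ ∧ (∀ x, T₁ (T₂ x) = T₂ (T₁ x)) ∧
      MeasurableSet A ∧ 0 < μ A ∧
      ∀ n ∈ digitSet, n ≠ 0 → μ (A ∩ (zpw T₁ n) '' A ∩ (zpw T₂ n) '' A) = 0 := by
  refine ⟨twoRecurrence, ?_⟩
  obtain ⟨μ, hμ, h1, h2, h3, h4⟩ := limit_system InS (ENNReal.ofReal (1 / 162))
    (ENNReal.ofReal_pos.2 (by norm_num)) (by
      intro K
      obtain ⟨g, h, hd⟩ := exists_dense K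
      exact ⟨Lam K, inferInstance, AA K g h, emp_ge K g h hd,
        fun n hn hK x => no_corner K g h n hn hK x⟩)
  refine ⟨Om, inferInstance, inferInstance, μ, hμ, shf (1, 0), shf (0, 1), cyl 0, h1, h2,
    fun x => shf_comm _ _ x, (cyl_clopen 0).1.measurableSet, h3, ?_⟩
  intro n hn _
  obtain ⟨N, hN, rfl⟩ := (mem_digitSet n).1 hn
  have e1 : (zpw (shf (1, 0)) (N : ℤ)) '' cyl 0 = cyl (N • (1, 0)) := by
    unfold zpw
    rw [zpow_natCast]
    exact shf_image (1, 0) N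
  have e2 : (zpw (shf (0, 1)) (N : ℤ)) '' cyl 0 = cyl (N • (0, 1)) := by
    unfold zpw
    rw [zpow_natCast]
    exact shf_image (0, 1) N
  rw [e1, e2]
  exact h4 N hN

end Pool.Agent.Results.MP_74ad1e_an.CommutingPairFails
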